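import Pool.Agent.N15.OT.Asm

/-!
# `Ω`-stable diffeomorphisms have no hyperbolic flows in the fibres

`V n = ℝⁿ`, `DiffM n N r = Diff^r(N)` with its `C^r` topology (`Pool/Agent/H718R2/G0.lean`);
`OmegaStable`, `Per F` (`Pool/Agent/TH80/OMS/Defs.lean`, `SymDefs.lean`): `Ω`-stability, periodic points.

`FlowHyp k n N F z` (`Pool/Agent/N813/FL/DefsF.lean`): `z` lies in a closed invariant set `K` of `F` on
which `F` is an extension, by the compact connected group of the maps `R_X = exp(X)`, `X ∈ ℝ^k`, of the
skew product `(x, y) ↦ (f x, φ_{τ(x)} y)` of `X × Y`, where `f` is an ARBITRARY homeomorphism of `X`,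
`τ ≥ 0` is continuous, and `φ` is a continuous flow on `Y` which is chain transitive, has the periodic
shadowing property and more than one orbit (for instance a transitive Anosov flow); the flow `(x, φ_t y)`
is covered by a smooth flow of `N` which commutes on `K` with `F` and the `R_X`; the point of `X` below `z`
is nonwandering for `f`. Outside of `K` the diffeomorphism `F` is arbitrary.

`MapOver k n N F R K z` (`Pool/Agent/N15/OT/DefsF.lean`): the same for `(x, y) ↦ (f x, h^{τ(x)} y)`,
`τ ≥ 1`, with a chain mixing homeomorphism `h` with the periodic shadowing property, and without the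
covering flow.
-/

set_option autoImplicit false

open scoped Manifold ContDiff Topology

universe u v

namespace Pool.Agent.Results.MP_814647_an.HyperbolicFlowFibres

open Pool.Agent.H718R2.G Pool.Agent.TH80.OMS Pool.Agent.N15.OT Pool.Agent.N813.FL.F

/-- Let `N` be a closed manifold, `1 ≤ r ≤ ∞`, and let `F ∈ Diff^r(N)` be `Ω`-stable.

1. On no closed invariant set is `F` a compact connected group extension of a skew product
   `(x, y) ↦ (f x, φ_{τ(x)} y)` with a hyperbolic flow `φ` in the fibres over an arbitrary
   homeomorphism `f` (`FlowHyp`), as there are nonwandering points of `f`.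
2. Let `F` be, on the closed invariant set `K ∋ z`, an extension by the compact connected group of the
   `R_X`, `X ∈ ℝ^k`, of a skew product `(x, y) ↦ (f x, h^{τ(x)} y)` as above (`MapOver`). Then
   `Rigid F R K z`: if `k ≥ 1` a one-parameter group `t ↦ R_(tX)`, `X ≠ 0`, fixes `z`; if the group is
   abelian it fixes `z`; if the group is trivial, `z` is a limit of periodic points; if the `R_X` commute
   with `F` on all of `N`, they fix `z`, and `z` is a limit of periodic points. -/
theorem result {n : ℕ} {N : Type u} [TopologicalSpace N] [T2Space N] [CompactSpace N]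
    [ChartedSpace (V n) N] [IsManifold (𝓡 n) ∞ N] (r : ℕ∞) (hr : 1 ≤ r) (F : DiffM n N r)
    (hF : OmegaStable n N r F) :
    (∀ (k : ℕ) (z : N), ¬ FlowHyp.{u, v} k n N F z) ∧
    (∀ (k : ℕ) (R : V k → N → N) (K : Set N) (z : N), MapOver.{u, v} k n N F R K z →
      Rigid F R K z) :=
  ⟨fun _ z => no_flow hr hF z, fun _ _ _ _ h => map_rigid hr hF h⟩

end Pool.Agent.Results.MP_814647_an.HyperbolicFlowFibres
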