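import Pool.Agent.N813.OG.Main

/-!
# `Ω`-stable diffeomorphisms: Lyapunov exponents along invariant line fields

`V n = ℝⁿ`, `DiffM n N r = Diff^r(N)` with its `C^r` topology (`Pool/Agent/H718R2/G0.lean`),
`OmegaStable`: `Pool/Agent/TH80/OMS/Defs.lean`. `ChartLip n N`: the distance of `N` is compatible with
the smooth structure (good charts are bi-Lipschitz near their centres; `Pool/Agent/Y368/CL/Met.lean`).
`GoodChart n N χ z₀`: a smooth chart `χ` with `χ z₀ = 0` whose image contains the closed unit ball.
`InSupp μ x`: `x` lies in the support of `μ` (`Pool/Agent/N813/OE/Defs.lean`).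

In `Pool/Agent/N813/OG/{Defs,Main}.lean`:
* `ExpMix4 g μ`: exponential mixing of order four (`M4`, for Lipschitz functions with values in
  `[0, 1]`);
* `FrostD μ D`: `μ(B(b, s)) ≤ C s^D` for all balls;
* `Mix4 g μ D z`: `μ` is an invariant probability measure with `ExpMix4 g μ` and `FrostD μ D`, `D > 0`,
  and `z` lies in its support;
* `HolderK K φ`: the function `φ` is Hölder continuous on `K`;
* `DerAt F χ m z D` (`Pool/Agent/N813/OF/Defs.lean`): `D` is the derivative of `F^m` at `z`, in the
  chart `χ`;
* `ConfDir n F K z₀ φ`: `F` has a Hölder continuous conformal direction along `K` near `z₀`, with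
  expansion `exp φ`: in a chart at `z₀` there is a Hölder continuous family of injective linear maps
  `J y : ℝ^d → ℝ^n`, `d ≥ 1`, `y ∈ K` close to `z₀`, such that the derivative of `F^m` at `y ∈ K`, for
  all times `m` at which `y` returns close to `z₀`, maps `J y e` to
  `exp(φ(y) + φ(F y) + … + φ(F^(m-1) y)) J (F^m y) (O e)`, with an orthogonal map `O` (which depends on
  `y` and `m`). For `d = 1` this is a (Hölder continuous) invariant line field along `K`, with the
  derivative `exp φ` along it, and `∫ φ dμ` is the Lyapunov exponent of `μ` along it.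
-/

set_option autoImplicit false

open scoped Manifold ContDiff Topology
open MeasureTheory Filter Set Metric

universe u

namespace Pool.Agent.Results.MP_814647_an.HyperbolicMeasures

open Pool.Agent.H718R2.G Pool.Agent.W564.SC Pool.Agent.N813.EM Pool.Agent.Y368.CL
  Pool.Agent.TH80.OMS Pool.Agent.N813.OE Pool.Agent.N813.OF Pool.Agent.N813.OG

/-- Let `N` be a closed manifold, `1 ≤ r < ∞`, let `F ∈ Diff^r(N)` be `Ω`-stable, and let `μ` be an
invariant probability measure which is exponentially mixing of order four and satisfies
`μ(B(x, s)) ≤ C s^D` for some `D > 2 (r - 1)`. Then all Lyapunov exponents of `μ` along Hölder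
continuous invariant line fields (and, more generally, along Hölder continuous conformal subbundles)
over the support of `μ` are different from zero. -/
theorem result {n : ℕ} {N : Type u} [MetricSpace N] [CompactSpace N] [MeasurableSpace N]
    [BorelSpace N] [ChartedSpace (V n) N] [IsManifold (𝓡 n) ∞ N] (hN : ChartLip n N) (r : ℕ)
    (hr : 1 ≤ r) (F : DiffM n N (r : ℕ∞)) (hF : OmegaStable n N (r : ℕ∞) F) (μ : Measure N) (D : ℝ)
    (hD : 2 * ((r : ℝ) - 1) < D) (z : N) (h : Mix4 F μ D z) (φ : N → ℝ)
    (hφ : HolderK {x | InSupp μ x} φ) (hc : ConfDir n F {x | InSupp μ x} z φ) :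
    ∫ x, φ x ∂μ ≠ 0 :=
  nonzero hr hN F hF μ D z h hD φ hφ hc

end Pool.Agent.Results.MP_814647_an.HyperbolicMeasures
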