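import Pool.Agent.N813.OF.Dir

/-!
# `Ω`-stable diffeomorphisms: the derivatives at close returns

`V n = ℝⁿ`, `DiffM n N r = Diff^r(N)` with its `C^r` topology (`Pool/Agent/H718R2/G0.lean`),
`OmegaStable`: `Pool/Agent/TH80/OMS/Defs.lean`. `ChartLip n N`: the distance of `N` is compatible with
the smooth structure (good charts are bi-Lipschitz near their centres; `Pool/Agent/Y368/CL/Met.lean`).
`GoodChart n N χ z₀`: a smooth chart `χ` with `χ z₀ = 0` whose image contains the closed unit ball.

In `Pool/Agent/N813/OF/Defs.lean`: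
* `Eig D μ`: `μ ∈ ℂ` is a root of the characteristic polynomial of `D`;
* `DerAt F χ m z D`: `D` is the derivative of `F^m` at `z`, in the chart `χ`;
* `CloseRet F χ k κ ρ m z`: in the chart `χ` the point `z` is closer than `κ` to the centre, it returns
  at the time `m ≥ 1` to the distance `κ ρ^k`, `0 < ρ < κ`, and not to a distance less than `2 ρ`
  before;
* `RobustAt F χ k κ`: if `CloseRet F χ k κ ρ m z` and `D` is the derivative of `F^m` at `z`, then
  `T ∘ D` has no eigenvalue of modulus `1`, for all linear maps `T` with `‖T - 1‖ ≤ κ ρ^(k-1)`;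
* `Apart F m p ρ`: each point `F^i p`, `0 ≤ i < m`, has a distance at least `ρ i > 0` from the others;
* `PerGap n F k κ`: if `F^m p = p`, `Apart F m p ρ` and all `ρ i < κ`, then
  `κ ∑ (ρ i)^(k-1) ≤ |log |μ||` for all eigenvalues `μ` of the derivative of `F^m` at `p`;
* in `Pool/Agent/N813/OF/Dir.lean`: `IsoDir n F K z₀`: `F` has an isometric direction along `K` near
  `z₀`: in a chart at `z₀` there is a Hölder continuous family of injective linear maps
  `J y : ℝ^d → ℝ^n`, `d ≥ 1`, `y ∈ K` close to `z₀`, such that the derivative of `F^m` at `y ∈ K`, for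
  all times `m` at which `y` returns close to `z₀`, maps the image of `J y` to the image of
  `J (F^m y)`, isometrically.

`InSupp μ x`: `x` lies in the support of `μ` (`Pool/Agent/N813/OE/Defs.lean`). `MixMeas F μ z`: `μ` is an
invariant probability measure with `μ(B(x, s)) ≤ C s^δ` for some `δ > 0`, mixing of order three with a
stretched exponential rate, and `z` lies in its support (`Pool/Agent/N813/EM/{Defs,DefsF}.lean`).
-/

set_option autoImplicit false

open scoped Manifold ContDiff Topology
open MeasureTheory Filter Set Metric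

universe u

namespace Pool.Agent.Results.MP_814647_an.RobustReturns

open Pool.Agent.H718R2.G Pool.Agent.W564.SC Pool.Agent.N813.EM Pool.Agent.Y368.CL
  Pool.Agent.TH80.OMS Pool.Agent.N813.OE Pool.Agent.N813.OF

/-- Let `N` be a closed manifold, `1 ≤ r ≤ ∞`, and let `F ∈ Diff^r(N)` be `Ω`-stable.
1. The derivatives of `F` at close returns are hyperbolic, with a margin: in every good chart there are
   `1 ≤ k ≤ r` and `κ > 0` such that if a point `z` close to the centre returns at the time `m` to the
   distance `κ ρ^k`, and not to a distance less than `2 ρ` before, then `T ∘ D(F^m)(z)` has no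
   eigenvalue of modulus `1` for all linear maps `T` with `‖T - 1‖ ≤ κ ρ^(k-1)`.
2. At periodic points there is a quantitative form: there are `1 ≤ k ≤ r` and `κ > 0` such that
   `|log |μ|| ≥ κ ∑ (ρ i)^(k-1)` for every eigenvalue `μ` of the derivative of `F^m` at a point `p` with
   `F^m p = p`, where `ρ i < κ` is at most the distance of `F^i p` from the rest of the orbit.
3. `F` has no isometric direction along the support of an invariant probability measure which is mixing
   of order three with a stretched exponential rate, and satisfies a Frostman condition. -/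
theorem result {n : ℕ} {N : Type u} [MetricSpace N] [CompactSpace N] [MeasurableSpace N]
    [BorelSpace N] [ChartedSpace (V n) N] [IsManifold (𝓡 n) ∞ N] (hN : ChartLip n N) (r : ℕ∞)
    (hr : 1 ≤ r) (F : DiffM n N r) (hF : OmegaStable n N r F) :
    (∀ (z₀ : N) (χ : OpenPartialHomeomorph N (V n)), GoodChart n N χ z₀ →
      ∃ k : ℕ, 1 ≤ k ∧ (k : ℕ∞) ≤ r ∧ ∃ κ : ℝ, 0 < κ ∧ RobustAt F χ k κ) ∧
    (∃ k : ℕ, 1 ≤ k ∧ (k : ℕ∞) ≤ r ∧ ∃ κ : ℝ, 0 < κ ∧ PerGap n F k κ) ∧
    (∀ (μ : Measure N) (z : N), MixMeas F μ z → ¬ IsoDir n F {x | InSupp μ x} z) :=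
  ⟨fun z₀ χ hχ => robust hr F hF χ z₀ hχ, gap hr hN F hF,
    fun μ z h => notIsoDir hr hN F hF μ z h⟩

end Pool.Agent.Results.MP_814647_an.RobustReturns
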