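import Pool.Agent.N102.UF.Hyp
import Pool.Agent.N102.UF.MS
import Pool.Agent.N102.UF.Irr

/-!
# `Ω`-stable diffeomorphisms: circle factors are mode-locked

`V n = ℝⁿ`, `DiffM n N r = Diff^r(N)`, `strongTop n N r` is its strong (Whitney) `C^r` topology
(`Pool/Agent/H718R2/G0.lean`); `Omega`, `OmegaStable`: nonwandering set, `Ω`-stability
(`Pool/Agent/TH80/OMS/Defs.lean`); `ex x = exp(2πix)`. A `CircleDeg1Lift` is a monotone map `g` of the
line with `g (x + 1) = g x + 1`, and `translationNumber g` its rotation number (Mathlib);
`rot g s = s + g` is its composition with the rotation by `s`.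

* `OmegaEig G λ C u` (`Pool/Agent/N102/UF/Fac.lean`): `λ` is a continuous eigenvalue of `G` on a
  nonempty invariant part `C` of `Ω(G)` which is relatively open and closed (for instance `C = Ω(G)`,
  or the part of `Ω(G)` in a trapping region): `u : C → S¹` is continuous and `u ∘ G = λ u`.
* `CircleFactor n N F A ψ a g` (`Pool/Agent/N102/UF/Main.lean`): on the trapping region `A`
  (`F (closure A) ⊆ A`, for instance `A = N`) the map `F` covers the circle homeomorphism with the
  lift `g`: `a : A → S¹` is continuous and `a ∘ F = g ∘ a`; otherwise `F` is arbitrary. The circle is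
  rotated by a smooth flow `ψ`: `a (ψ_t z) = exp(2πit) a(z)` for `z ∈ F(closure A)` and small `t` (such
  flows exist if `a` is a smooth submersion, for instance if `a : N → S¹` is a fibre bundle).

No closing lemma is used, and nothing is assumed on the dynamics in the fibres. Proof: a conjugacy
transports the continuous eigenfunctions of the maps near `F` to functions on the one space `Ω(F)`,
where those with different eigenvalues have distance at least one, so that there are only countably
many eigenvalues. If the rotation number of `s + g` is not constant near `s = 0`, then uncountably many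
values are irrational, and Poincaré's semiconjugacies with the rotations are eigenfunctions of the maps
`ψ_s ∘ F`. The hyperbolicity in the third part is that of the periodic points of `F`, which is proved
in the starting library (project CO, helper504 and others).
-/

set_option autoImplicit false

open scoped Manifold ContDiff Topology

universe u

namespace Pool.Agent.Results.MP_814647_an.UnlockedFactors

open Pool.Agent.H718R2.G Pool.Agent.TH80.OMS Pool.Agent.TH290.CL Pool.Agent.N102.UF
open CircleDeg1Lift

/-- `x` is a periodic point (modulo one) of the circle homeomorphism with the lift `g`. -/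
def PerLift (g : CircleDeg1Lift) (x : ℝ) : Prop := ∃ (m : ℕ) (j : ℤ), 1 ≤ m ∧ g^[m] x = x + j

/-- `g` is the lift of a Morse–Smale homeomorphism of the circle: there are finitely many periodic
points modulo one, and they are hyperbolic: some power `g^m` which fixes the point (modulo one) is
differentiable there with `|(g^m)'| ≠ 1`. -/
def MorseSmale (g : CircleDeg1Lift) : Prop :=
  {x : ℝ | 0 ≤ x ∧ x < 1 ∧ PerLift g x}.Finite ∧
    ∀ x : ℝ, PerLift g x → ∃ (m : ℕ) (j : ℤ), 1 ≤ m ∧ g^[m] x = x + j ∧
      ∃ κ : ℝ, HasDerivAt g^[m] κ x ∧ |κ| ≠ 1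

/-- Let `N` be a closed manifold, `1 ≤ r ≤ ∞`, and let `F ∈ Diff^r(N)` be `Ω`-stable.
1. There is a countable set which contains all continuous eigenvalues of all maps near `F` (on all
   open and closed invariant parts of their nonwandering sets).
2. If `F` covers a circle homeomorphism `g`, on `N` or only on a trapping region `A`, then `g` is
   mode-locked: the rotation number of `s + g` does not depend on `s` for small `s`. In particular it
   is rational.
3. In the situation of 2, if `a` is of class `C¹`, all periodic points of `F` in `A` lie over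
   hyperbolic periodic points of `g`; and if there is a periodic point of `F` over each periodic point
   of `g`, then `g` is Morse–Smale. -/
theorem result (n : ℕ) (N : Type u) [TopologicalSpace N] [T2Space N] [CompactSpace N]
    [ChartedSpace (V n) N] [IsManifold (𝓡 n) ∞ N] (r : ℕ∞) (hr : 1 ≤ r) (F : DiffM n N r)
    (hF : OmegaStable n N r F) :
    (∃ U : Set (DiffM n N r), IsOpen[strongTop n N r] U ∧ F ∈ U ∧ ∃ E : Set ℂ, E.Countable ∧
      ∀ G ∈ U, ∀ (lam : ℂ) (C : Set N) (u : N → ℂ), OmegaEig G lam C u → lam ∈ E) ∧
    (∀ (A : Set N) (ψ : ℝ → N → N) (a : N → ℂ) (g : CircleDeg1Lift),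
      CircleFactor n N F A ψ a g →
      (∃ ε : ℝ, 0 < ε ∧ ∀ s : ℝ, |s| < ε → translationNumber (rot g s) = translationNumber g) ∧
      ¬ Irrational (translationNumber g) ∧
      (ContMDiffOn (𝓡 n) 𝓘(ℝ, ℂ) 1 a A →
        (∀ p ∈ A, ∀ m : ℕ, 1 ≤ m → F^[m] p = p → ∀ x : ℝ, a p = ex x →
          ∃ κ : ℝ, HasDerivAt g^[m] κ x ∧ |κ| ≠ 1) ∧
        ((∀ x : ℝ, PerLift g x → ∃ p ∈ A, ∃ m : ℕ, 1 ≤ m ∧ F^[m] p = p ∧ a p = ex x) →
          MorseSmale g))) := by
  refine ⟨spectrum r F hF, fun A ψ a g h => ?_⟩
  have hlock := locked r hr F hF h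
  refine ⟨hlock, ?_, fun ha => ?_⟩
  · intro hirr
    obtain ⟨ε, hε, h1⟩ := hlock
    have h2 := lt_of_irrational h.cont hirr (half_pos hε)
    rw [h1 (ε / 2) (by rw [abs_of_pos (half_pos hε)]; linarith)] at h2
    exact lt_irrefl _ h2
  · have hh := fun p hp m hm hpm x hx => hyperbolic r hr F hF h ha p hp m hm hpm x hx
    refine ⟨hh, fun hall => ?_⟩
    have hyp : ∀ x : ℝ, PerLift g x → ∃ (m : ℕ) (j : ℤ), 1 ≤ m ∧ g^[m] x = x + j ∧
        ∃ κ : ℝ, HasDerivAt g^[m] κ x ∧ |κ| ≠ 1 := by
      intro x hx
      obtain ⟨p, hp, k, hk, hpk, hpx⟩ := hall x hx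
      have h1 := (h.iter k p hp).2 x hpx
      rw [hpk, hpx] at h1
      obtain ⟨j, hj⟩ := ex_eq_ex h1
      refine ⟨k, -j, hk, ?_, hh p hp k hk hpk x hpx⟩
      push_cast
      linarith
    exact ⟨finite_periodic g h.cont hyp, hyp⟩

end Pool.Agent.Results.MP_814647_an.UnlockedFactors
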